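import Mathlib

/-!
# Odd numbers that are never the gap from `2 ^ n` to the next odd semiprime

A double covering of the integers by the residue classes `a mod m` with pairwise coprime `p ∣ 2 ^ m - 1`: if
`k ≡ - 2 ^ a (mod p)` for all of them, every `2 ^ n + k` has two coprime proper divisors `p`, `q` from the
list, and `2 ^ n + k > p q`; so `2 ^ n + k` has at least three prime factors for every `n ≥ 0`.
-/

set_option autoImplicit false

namespace Pool.Agent.Results.MP_c49196_nt.DoubleCovering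

/-- a product of two primes, not necessarily distinct -/
def Semiprime (s : ℕ) : Prop := ∃ p q : ℕ, p.Prime ∧ q.Prime ∧ s = p * q

/-- the distance from `2 ^ n` to the smallest odd semiprime exceeding it -/
noncomputable def a (n : ℕ) : ℕ := sInf {s : ℕ | 2 ^ n < s ∧ Odd s ∧ Semiprime s} - 2 ^ n

/-- the covering: triples `(m, p, a)` for the class `a mod m` and the divisor `p` of `2 ^ m - 1` -/
def L : List (ℕ × ℕ × ℕ) :=
  [(2, 3, 0), (3, 7, 0), (4, 5, 3), (5, 31, 1), (7, 127, 3), (8, 17, 1), (9, 73, 4), (10, 11, 7), (12, 13, 5), (14, 43, 2), (15, 151, 14), (16, 257, 13), (18, 19, 1), (20, 41, 18), (21, 337, 14), (24, 241, 13), (28, 29, 4), (28, 113, 12), (30, 331, 23), (35, 71, 15), (35, 122921, 20), (36, 37, 7), (36, 109, 10), (40, 61681, 25), (42, 5419, 28), (45, 631, 34), (45, 23311, 43), (48, 97, 21), (60, 61, 35), (60, 1321, 8), (63, 92737, 25), (63, 649657, 61), (70, 281, 22), (70, 86171, 62), (72, 433, 64), (72, 38737, 28), (80, 4278255361, 5),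 (84, 1429, 26), (84, 14449, 74)]

/-- the first term of the progression -/
def k₀ : ℕ := 27506116231511849586286449886364985371548275030210121461640471697396082279937280516001131804134731240791507

/-- the difference of the progression -/
def Q : ℕ := 49123915393640253310601919423925258507229544330793950922494370168804333670529554731552578076231539244793010

lemma L_spec : ∀ x ∈ L, 2 ^ x.1 % x.2.1 = 1 ∧ (2 ^ x.2.2 + k₀) % x.2.1 = 0 ∧ Q % x.2.1 = 0 ∧
    2 ≤ x.2.1 ∧ x.2.1 ≤ 4278255361 := by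
  decide +kernel

lemma L_coprime : L.Pairwise (fun x y => Nat.Coprime x.2.1 y.2.1) := by
  decide +kernel

lemma L_cover : ∀ u : Fin 72, ∀ v : Fin 70,
    2 ≤ (L.filter (fun x => (70 * (u : ℕ) + v) % x.1 == x.2.2)).length := by
  decide +kernel

lemma L_mod : ∀ x ∈ L, x.1 ∣ 5040 := by decide +kernel

/-- an element of the class `a mod m` -/
lemma dvd_of_mem {x : ℕ × ℕ × ℕ} (hx : x ∈ L) {n : ℕ} (hn : n % x.1 = x.2.2) (j : ℕ) :
    x.2.1 ∣ 2 ^ n + (k₀ + Q * j) := by
  obtain ⟨h1, h2, h3, h4, -⟩ := L_spec x hx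
  have h5 : 2 ^ n ≡ 2 ^ x.2.2 [MOD x.2.1] := by
    have h6 : n = x.1 * (n / x.1) + x.2.2 := by
      rw [← hn]; exact (Nat.div_add_mod n x.1).symm
    have h7 : 2 ^ x.1 ≡ 1 [MOD x.2.1] := by
      rw [Nat.ModEq, h1, Nat.mod_eq_of_lt (by omega)]
    calc 2 ^ n = (2 ^ x.1) ^ (n / x.1) * 2 ^ x.2.2 := by rw [← pow_mul, ← pow_add, ← h6]
      _ ≡ 1 ^ (n / x.1) * 2 ^ x.2.2 [MOD x.2.1] := (h7.pow _).mul_right _
      _ = 2 ^ x.2.2 := by rw [one_pow, one_mul]
  have h8 : x.2.1 ∣ Q * j := Dvd.dvd.mul_right (Nat.dvd_of_mod_eq_zero h3) j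
  have h9 : 2 ^ n + (k₀ + Q * j) ≡ 0 [MOD x.2.1] := by
    calc 2 ^ n + (k₀ + Q * j) ≡ 2 ^ x.2.2 + (k₀ + 0) [MOD x.2.1] :=
          h5.add (Nat.ModEq.add_left _ ((Nat.modEq_zero_iff_dvd).2 h8))
      _ = 2 ^ x.2.2 + k₀ := by rw [add_zero]
      _ ≡ 0 [MOD x.2.1] := h2
  exact (Nat.modEq_zero_iff_dvd).1 h9

/-- no member of the progression is a gap -/
lemma not_semiprime (n j : ℕ) : ¬ Semiprime (2 ^ n + (k₀ + Q * j)) := by
  rintro ⟨p, q, hp, hq, h⟩
  -- two coprime members of the list divide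
  have hn5040 : n % 5040 < 5040 := Nat.mod_lt _ (by norm_num)
  have hcov := L_cover ⟨n % 5040 / 70, by omega⟩ ⟨n % 5040 % 70, by omega⟩
  have hdm : 70 * (n % 5040 / 70) + n % 5040 % 70 = n % 5040 := Nat.div_add_mod _ _
  simp only [hdm] at hcov
  obtain ⟨F, hF⟩ : ∃ F, F = L.filter (fun x => (n % 5040) % x.1 == x.2.2) := ⟨_, rfl⟩
  have hFp : F.Pairwise (fun x y => Nat.Coprime x.2.1 y.2.1) := by
    rw [hF]; exact L_coprime.filter _
  have hFm : ∀ x ∈ F, x ∈ L ∧ n % x.1 = x.2.2 := by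
    intro x hx
    rw [hF, List.mem_filter, beq_iff_eq] at hx
    exact ⟨hx.1, by rw [← hx.2, Nat.mod_mod_of_dvd _ (L_mod x hx.1)]⟩
  simp only [← hF] at hcov
  match F, hcov, hFp, hFm with
  | x :: y :: F', _, hFp, hFm =>
    have hx := hFm x (by simp)
    have hy := hFm y (by simp)
    have hxy : Nat.Coprime x.2.1 y.2.1 := (List.pairwise_cons.1 hFp).1 y (by simp)
    have h1 := dvd_of_mem hx.1 hx.2 j
    have h2 := dvd_of_mem hy.1 hy.2 j
    obtain ⟨c, hc⟩ := hxy.mul_dvd_of_dvd_of_dvd h1 h2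
    obtain ⟨-, -, -, hx2, hx3⟩ := L_spec x hx.1
    obtain ⟨-, -, -, hy2, hy3⟩ := L_spec y hy.1
    have hbig : x.2.1 * y.2.1 < k₀ := by
      calc x.2.1 * y.2.1 ≤ 4278255361 * 4278255361 := Nat.mul_le_mul hx3 hy3
        _ < k₀ := by decide +kernel
    have hc2 : 2 ≤ c := by
      by_contra hlt
      have : c ≤ 1 := by omega
      have h3 : x.2.1 * y.2.1 * c ≤ x.2.1 * y.2.1 * 1 := Nat.mul_le_mul_left _ this
      have h4 : k₀ ≤ 2 ^ n + (k₀ + Q * j) := by
        exact (Nat.le_add_right k₀ (Q * j)).trans (Nat.le_add_left _ _)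
      rw [hc] at h4
      rw [mul_one] at h3
      exact absurd (hbig.trans_le h4) (not_lt.2 h3)
    -- count prime factors
    have hΩ : ∀ m : ℕ, 2 ≤ m → 1 ≤ ArithmeticFunction.cardFactors m := by
      intro m hm
      rw [Nat.one_le_iff_ne_zero, Ne, ArithmeticFunction.cardFactors_eq_zero_iff_eq_zero_or_one]
      omega
    have h5 : ArithmeticFunction.cardFactors (p * q) = 2 := by
      rw [ArithmeticFunction.cardFactors_mul hp.ne_zero hq.ne_zero,
        ArithmeticFunction.cardFactors_apply_prime hp, ArithmeticFunction.cardFactors_apply_prime hq]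
    have h6 : ArithmeticFunction.cardFactors (x.2.1 * y.2.1 * c) =
        ArithmeticFunction.cardFactors x.2.1 + ArithmeticFunction.cardFactors y.2.1 +
          ArithmeticFunction.cardFactors c := by
      rw [ArithmeticFunction.cardFactors_mul (Nat.mul_ne_zero (by omega) (by omega)) (by omega),
        ArithmeticFunction.cardFactors_mul (by omega) (by omega)]
    rw [← hc, h, h5] at h6
    have h7 := hΩ _ hx2
    have h8 := hΩ _ hy2
    have h9 := hΩ _ hc2
    omega

/-- **Not every odd number is a gap.** There is an arithmetic progression of odd positive integers none of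
which is a value of `a`. -/
theorem result : ∃ k Q : ℕ, Odd k ∧ Even Q ∧ 0 < Q ∧ ∀ j n : ℕ, a n ≠ k + Q * j := by
  refine ⟨k₀, Q, by decide +kernel, by decide +kernel, by decide +kernel, fun j n h => ?_⟩
  have hpos : 0 < k₀ + Q * j := Nat.lt_of_lt_of_le (by decide +kernel : 0 < k₀) (Nat.le_add_right _ _)
  have hne : {s : ℕ | 2 ^ n < s ∧ Odd s ∧ Semiprime s}.Nonempty := by
    rw [Set.nonempty_iff_ne_empty]
    intro h0
    rw [a, h0, Nat.sInf_empty, Nat.zero_sub] at h
    omega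
  have hmem := Nat.sInf_mem hne
  have h1 : sInf {s : ℕ | 2 ^ n < s ∧ Odd s ∧ Semiprime s} = 2 ^ n + (k₀ + Q * j) := by
    rw [a] at h
    have := hmem.1
    omega
  rw [h1] at hmem
  exact not_semiprime n j hmem.2.2

end Pool.Agent.Results.MP_c49196_nt.DoubleCovering
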